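import Mathlib

set_option autoImplicit false
set_option maxHeartbeats 400000

namespace Pool.Agent.H369Z.Err

namespace H25

open Finset

lemma partial_conv (a g b : ℕ → ℝ)
    (hb : ∀ n : ℕ, b n = ∑ x ∈ n.divisorsAntidiagonal, g x.1 * a x.2) (N n : ℕ) (hn : n ≤ N) :
    ∑ k ∈ Icc 1 n, b k = ∑ m ∈ Icc 1 N, g m * ∑ y ∈ Icc 1 (n / m), a y := by
  have h1 : ∀ k ∈ Icc 1 n, b k =
      ∑ m ∈ Icc 1 N, ∑ y ∈ Icc 1 N, if m * y = k then g m * a y else 0 := by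
    intro k hk
    rw [mem_Icc] at hk
    rw [hb, ← sum_product', ← sum_filter]
    apply sum_congr _ (fun _ _ => rfl)
    ext ⟨m, y⟩
    simp only [Nat.mem_divisorsAntidiagonal, mem_filter, mem_product, mem_Icc]
    constructor
    · rintro ⟨h, h0⟩
      have hm : 0 < m := Nat.pos_of_ne_zero (by rintro rfl; simp at h; omega)
      have hy : 0 < y := Nat.pos_of_ne_zero (by rintro rfl; simp at h; omega)
      have h2 : m ≤ m * y := Nat.le_mul_of_pos_right m hy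
      have h3 : y ≤ m * y := Nat.le_mul_of_pos_left y hm
      exact ⟨⟨⟨hm, by omega⟩, ⟨hy, by omega⟩⟩, h⟩
    · rintro ⟨_, h⟩
      exact ⟨h, by omega⟩
  rw [sum_congr rfl h1, sum_comm]
  apply sum_congr rfl
  intro m hm
  rw [mem_Icc] at hm
  rw [sum_comm, mul_sum]
  have h2 : ∀ y ∈ Icc 1 N, (∑ k ∈ Icc 1 n, if m * y = k then g m * a y else 0) =
      if y ∈ Icc 1 (n / m) then g m * a y else 0 := by
    intro y hy
    rw [mem_Icc] at hy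
    rw [sum_ite_eq]
    have : m * y ∈ Icc 1 n ↔ y ∈ Icc 1 (n / m) := by
      simp only [mem_Icc]
      rw [Nat.le_div_iff_mul_le (by omega), mul_comm y m]
      constructor
      · rintro ⟨_, h⟩; exact ⟨hy.1, h⟩
      · rintro ⟨_, h⟩; exact ⟨Nat.mul_pos hm.1 hy.1, h⟩
    simp only [this]
  rw [sum_congr rfl h2, ← sum_filter]
  apply sum_congr _ (fun _ _ => rfl)
  ext y
  simp only [mem_filter, mem_Icc]
  have : n / m ≤ n := Nat.div_le_self n m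
  omega

lemma sum_div (φ : ℕ → ℝ) (m : ℕ) (hm : 0 < m) (K : ℕ) :
    ∑ n ∈ range (m * K), φ (n / m) = m * ∑ k ∈ range K, φ k := by
  induction K with
  | zero => simp
  | succ K ih =>
    rw [Nat.mul_succ, sum_range_add, ih, sum_range_succ, mul_add]
    congr 1
    have : ∀ x ∈ range m, φ ((m * K + x) / m) = φ K := by
      intro x hx
      rw [mem_range] at hx
      rw [Nat.mul_add_div hm, Nat.div_eq_of_lt hx, add_zero]
    rw [sum_congr rfl this]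
    simp

lemma shifted (A : ℕ → ℝ) (hA : A 0 = 0) (σ : ℝ) (hσ : 0 ≤ σ) (m : ℕ) (hm : 0 < m) (N : ℕ) :
    ∑ n ∈ Icc 1 N, A (n / m) ^ 2 * (n : ℝ) ^ (-(2 * σ + 1)) ≤
      (m : ℝ) ^ (-(2 * σ)) * ∑ n ∈ Icc 1 N, A n ^ 2 * (n : ℝ) ^ (-(2 * σ + 1)) := by
  set φ : ℕ → ℝ := fun k => A k ^ 2 * ((m : ℝ) * k) ^ (-(2 * σ + 1)) with hφ
  have hmR : (0 : ℝ) < m := by exact_mod_cast hm
  have hφ0 : ∀ k, 0 ≤ φ k := fun k => by simp only [hφ]; positivity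
  have h1 : ∀ n ∈ Icc 1 N, A (n / m) ^ 2 * (n : ℝ) ^ (-(2 * σ + 1)) ≤ φ (n / m) := by
    intro n _
    rcases Nat.eq_zero_or_pos (n / m) with h | h
    · simp [hφ, h, hA]
    · simp only [hφ]
      apply mul_le_mul_of_nonneg_left _ (sq_nonneg _)
      have hk : (0 : ℝ) < ((n / m : ℕ) : ℝ) := by exact_mod_cast h
      apply Real.rpow_le_rpow_of_nonpos (by positivity) _ (by linarith)
      exact_mod_cast Nat.mul_div_le n m
  have h2 : ∑ n ∈ Icc 1 N, φ (n / m) ≤ ∑ n ∈ range (m * (N + 1)), φ (n / m) := by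
    apply sum_le_sum_of_subset_of_nonneg
    · intro n hn
      rw [mem_Icc] at hn
      rw [mem_range]
      have : N + 1 ≤ m * (N + 1) := Nat.le_mul_of_pos_left _ hm
      omega
    · intro n _ _; exact hφ0 _
  have h3 : ∑ k ∈ range (N + 1), φ k =
      (m : ℝ) ^ (-(2 * σ + 1)) * ∑ n ∈ Icc 1 N, A n ^ 2 * (n : ℝ) ^ (-(2 * σ + 1)) := by
    rw [mul_sum, range_eq_Ico, sum_eq_sum_Ico_succ_bot (by omega)]
    have : φ 0 = 0 := by simp [hφ, hA]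
    rw [this, zero_add]
    have e : Ico (0 + 1) (N + 1) = Icc 1 N := by ext x; simp only [mem_Ico, mem_Icc]; omega
    rw [e]
    apply sum_congr rfl
    intro k _
    simp only [hφ]
    rw [Real.mul_rpow hmR.le (Nat.cast_nonneg k)]
    ring
  have h4 : (m : ℝ) * (m : ℝ) ^ (-(2 * σ + 1)) = (m : ℝ) ^ (-(2 * σ)) := by
    have : -(2 * σ) = 1 + -(2 * σ + 1) := by ring
    rw [this, Real.rpow_add hmR, Real.rpow_one]
  calc _ ≤ ∑ n ∈ Icc 1 N, φ (n / m) := sum_le_sum h1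
    _ ≤ _ := h2
    _ = _ := by rw [sum_div φ m hm, h3, ← mul_assoc, h4]

lemma cross (A : ℕ → ℝ) (hA : A 0 = 0) (σ : ℝ) (hσ : 0 ≤ σ) (m : ℕ) (hm : 0 < m) (N : ℕ) :
    |∑ n ∈ Icc 1 N, A n * A (n / m) * (n : ℝ) ^ (-(2 * σ + 1))| ≤
      (m : ℝ) ^ (-σ) * ∑ n ∈ Icc 1 N, A n ^ 2 * (n : ℝ) ^ (-(2 * σ + 1)) := by
  have hmR : (0 : ℝ) < m := by exact_mod_cast hm
  set t : ℝ := (m : ℝ) ^ (-σ) with ht
  set u : ℝ := (m : ℝ) ^ σ with hu
  have ht0 : 0 < t := by positivity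
  have hu0 : 0 < u := by positivity
  have htu : t * u = 1 := by rw [ht, hu, ← Real.rpow_add hmR]; simp
  have htt : (m : ℝ) ^ (-(2 * σ)) = t * t := by
    rw [ht, ← Real.rpow_add hmR]; congr 1; ring
  have h1 : ∀ n ∈ Icc 1 N, |A n * A (n / m) * (n : ℝ) ^ (-(2 * σ + 1))| ≤
      t / 2 * (A n ^ 2 * (n : ℝ) ^ (-(2 * σ + 1))) +
        u / 2 * (A (n / m) ^ 2 * (n : ℝ) ^ (-(2 * σ + 1))) := by
    intro n _
    have hw : (0 : ℝ) ≤ (n : ℝ) ^ (-(2 * σ + 1)) := by positivity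
    rw [abs_mul, abs_of_nonneg hw]
    have key : |A n * A (n / m)| ≤ t / 2 * A n ^ 2 + u / 2 * A (n / m) ^ 2 := by
      set x := A n
      set y := A (n / m)
      have e1 : u * (t * x - y) ^ 2 = t * x ^ 2 - 2 * (x * y) + u * y ^ 2 := by
        have : u * (t * x - y) ^ 2 = (t * u) * t * x ^ 2 - 2 * (t * u) * (x * y) + u * y ^ 2 := by ring
        rw [this, htu]; ring
      have e2 : u * (t * x + y) ^ 2 = t * x ^ 2 + 2 * (x * y) + u * y ^ 2 := by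
        have : u * (t * x + y) ^ 2 = (t * u) * t * x ^ 2 + 2 * (t * u) * (x * y) + u * y ^ 2 := by ring
        rw [this, htu]; ring
      have p1 : 0 ≤ u * (t * x - y) ^ 2 := by positivity
      have p2 : 0 ≤ u * (t * x + y) ^ 2 := by positivity
      rw [abs_le]; constructor <;> linarith
    nlinarith [mul_le_mul_of_nonneg_right key hw]
  have h2 := shifted A hA σ hσ m hm N
  rw [htt] at h2
  calc _ ≤ _ := abs_sum_le_sum_abs _ _
    _ ≤ _ := sum_le_sum h1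
    _ = t / 2 * (∑ n ∈ Icc 1 N, A n ^ 2 * (n : ℝ) ^ (-(2 * σ + 1))) +
        u / 2 * ∑ n ∈ Icc 1 N, A (n / m) ^ 2 * (n : ℝ) ^ (-(2 * σ + 1)) := by
      rw [sum_add_distrib, mul_sum, mul_sum]
    _ ≤ t / 2 * (∑ n ∈ Icc 1 N, A n ^ 2 * (n : ℝ) ^ (-(2 * σ + 1))) +
        u / 2 * (t * t * ∑ n ∈ Icc 1 N, A n ^ 2 * (n : ℝ) ^ (-(2 * σ + 1))) := by
      gcongr
    _ = _ := by
      have : ∀ I : ℝ, t / 2 * I + u / 2 * (t * t * I) = t / 2 * I + (t * u) * t / 2 * I := by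
        intro I; ring
      rw [this, htu]; ring

end H25

theorem cross_lower (a g b : ℕ → ℝ) (σ : ℝ) (hσ : 0 ≤ σ)
    (hb : ∀ n : ℕ, b n = ∑ x ∈ n.divisorsAntidiagonal, g x.1 * a x.2) (hg1 : g 1 = 1)
    (hg : ∀ M : ℕ, ∑ m ∈ Finset.Icc 2 M, |g m| * (m : ℝ) ^ (-σ) ≤ 1 / 2) (N : ℕ) :
    1 / 2 * ∑ n ∈ Finset.Icc 1 N, (∑ m ∈ Finset.Icc 1 n, a m) ^ 2 * (n : ℝ) ^ (-(2 * σ + 1)) ≤
      ∑ n ∈ Finset.Icc 1 N, (∑ m ∈ Finset.Icc 1 n, a m) * (∑ m ∈ Finset.Icc 1 n, b m) *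
        (n : ℝ) ^ (-(2 * σ + 1)) := by
  set A : ℕ → ℝ := fun n => ∑ m ∈ Finset.Icc 1 n, a m with hAdef
  have hA : A 0 = 0 := by simp [hAdef]
  rcases Nat.eq_zero_or_pos N with rfl | hN
  · simp
  set I : ℝ := ∑ n ∈ Finset.Icc 1 N, A n ^ 2 * (n : ℝ) ^ (-(2 * σ + 1)) with hI
  have hI0 : 0 ≤ I := Finset.sum_nonneg (fun n _ => by positivity)
  have h1 : ∑ n ∈ Finset.Icc 1 N, A n * (∑ m ∈ Finset.Icc 1 n, b m) * (n : ℝ) ^ (-(2 * σ + 1)) =
      ∑ m ∈ Finset.Icc 1 N, g m *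
        ∑ n ∈ Finset.Icc 1 N, A n * A (n / m) * (n : ℝ) ^ (-(2 * σ + 1)) := by
    have : ∀ n ∈ Finset.Icc 1 N, A n * (∑ m ∈ Finset.Icc 1 n, b m) * (n : ℝ) ^ (-(2 * σ + 1)) =
        ∑ m ∈ Finset.Icc 1 N, g m * (A n * A (n / m) * (n : ℝ) ^ (-(2 * σ + 1))) := by
      intro n hn
      rw [Finset.mem_Icc] at hn
      rw [H25.partial_conv a g b hb N n hn.2, Finset.mul_sum, Finset.sum_mul]
      apply Finset.sum_congr rfl
      intro m _
      simp only [hAdef]; ring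
    rw [Finset.sum_congr rfl this, Finset.sum_comm]
    apply Finset.sum_congr rfl
    intro m _
    rw [Finset.mul_sum]
  have hsplit : Finset.Icc 1 N = insert 1 (Finset.Icc 2 N) := by
    ext x; simp only [Finset.mem_insert, Finset.mem_Icc]; omega
  have h2 : ∑ m ∈ Finset.Icc 1 N, g m *
        ∑ n ∈ Finset.Icc 1 N, A n * A (n / m) * (n : ℝ) ^ (-(2 * σ + 1)) =
      I + ∑ m ∈ Finset.Icc 2 N, g m *
        ∑ n ∈ Finset.Icc 1 N, A n * A (n / m) * (n : ℝ) ^ (-(2 * σ + 1)) := by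
    set F : ℕ → ℝ := fun m => g m *
        ∑ n ∈ Finset.Icc 1 N, A n * A (n / m) * (n : ℝ) ^ (-(2 * σ + 1)) with hF
    have : ∑ m ∈ Finset.Icc 1 N, F m = F 1 + ∑ m ∈ Finset.Icc 2 N, F m := by
      rw [hsplit, Finset.sum_insert (by simp)]
    rw [this]
    congr 1
    simp only [hF, hg1, one_mul, Nat.div_one, hI, sq]
  have h3 : -(1 / 2 * I) ≤ ∑ m ∈ Finset.Icc 2 N, g m *
        ∑ n ∈ Finset.Icc 1 N, A n * A (n / m) * (n : ℝ) ^ (-(2 * σ + 1)) := by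
    have h4 : ∀ m ∈ Finset.Icc 2 N, -(|g m| * (m : ℝ) ^ (-σ) * I) ≤ g m *
        ∑ n ∈ Finset.Icc 1 N, A n * A (n / m) * (n : ℝ) ^ (-(2 * σ + 1)) := by
      intro m hm
      rw [Finset.mem_Icc] at hm
      have h5 := H25.cross A hA σ hσ m (by omega) N
      have h6 : |g m * ∑ n ∈ Finset.Icc 1 N, A n * A (n / m) * (n : ℝ) ^ (-(2 * σ + 1))| ≤
          |g m| * (m : ℝ) ^ (-σ) * I := by
        rw [abs_mul, mul_assoc]
        exact mul_le_mul_of_nonneg_left h5 (abs_nonneg _)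
      exact (abs_le.mp h6).1
    have h7 := Finset.sum_le_sum h4
    rw [Finset.sum_neg_distrib, ← Finset.sum_mul] at h7
    have h8 := mul_le_mul_of_nonneg_right (hg N) hI0
    linarith
  show 1 / 2 * I ≤ ∑ n ∈ Finset.Icc 1 N, A n * (∑ m ∈ Finset.Icc 1 n, b m) * (n : ℝ) ^ (-(2 * σ + 1))
  rw [h1, h2]
  linarith

end Pool.Agent.H369Z.Err
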